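import Pool.Agent.Y33.SM.Stm
import Pool.Agent.TH54.BU.PAx
import Pool.Agent.TH54.BU.WindF
import Pool.Agent.TH54.BU.FamLS

/-!
# Job SM-CIRC (helper179): relator circles are embedded in the quotient
-/

set_option autoImplicit false

namespace Pool.Agent.Y179.SM.Circ

open Pool.Agent.TH54.BU Pool.Agent.Y33.SM

/-- a point with small displacement is near a power -/
theorem near_line {G : Type*} [Group G] (w : GH G) {y v : G} (hy : w.CMin y)
    (hl : 4 * w.D + 4 ≤ w.len y) (hv : w.d v (y * v) ≤ w.len y) :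
    ∃ l : ℤ, w.d v (y ^ l) ≤ w.len y + 7 * w.D := by
  obtain ⟨hsup, -⟩ := w.sup_of_cmin hy hl
  obtain ⟨N0, hN⟩ := w.near_axis hy hl hv
  have h := hN N0 le_rfl
  have e1 : y ^ (-(N0 : ℤ)) = (y ^ N0)⁻¹ := by rw [zpow_neg, zpow_natCast]
  have h2 : w.d (y ^ (-(N0 : ℤ))) v + w.d v (y ^ (N0 : ℤ)) ≤
      w.d (y ^ (-(N0 : ℤ))) (y ^ (N0 : ℤ)) + 4 * w.D := by
    rw [w.pax_d_zpow, show (N0 : ℤ) - -(N0 : ℤ) = ((2 * N0 : ℕ) : ℤ) by push_cast; ring,
      zpow_natCast, e1, zpow_natCast]
    exact h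
  obtain ⟨l, hl⟩ := w.pax_near_powers hsup _ _ v _ h2
  exact ⟨l, by omega⟩

section per

variable {G : Type} [Group G] {w : GH G} {x : G} {ζ : ℤ → G}

theorem per_le (h : Per w x ζ) (s : ℤ) (t : ℕ) : w.d (ζ s) (ζ (s + t)) ≤ t := by
  induction t with
  | zero => simp [w.d_self]
  | succ t ih =>
    have h1 := w.d_tri (ζ s) (ζ (s + t)) (ζ (s + (t + 1 : ℕ)))
    have h2 := h.step (s + t)
    have e : s + (t : ℤ) + 1 = s + ((t + 1 : ℕ) : ℤ) := by push_cast; ring
    rw [e] at h2
    omega

theorem per_pow (h : Per w x ζ) (s : ℤ) (a : ℕ) : ζ (s + (a * w.len x : ℕ)) = x ^ a * ζ s := by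
  induction a with
  | zero => simp
  | succ a ih =>
    have e : s + (((a + 1) * w.len x : ℕ) : ℤ) = s + ((a * w.len x : ℕ) : ℤ) + w.len x := by
      push_cast; ring
    rw [e, h.per, ih, pow_succ', mul_assoc]

theorem per_geod (h : Per w x ζ) (hx : w.CMin x) (s : ℤ) (t : ℕ) (ht : t ≤ w.len x) :
    w.d (ζ s) (ζ (s + t)) = t := by
  apply le_antisymm (per_le h s t)
  have h1 := per_le h (s + t) (w.len x - t)
  have e : s + (t : ℤ) + ((w.len x - t : ℕ) : ℤ) = s + w.len x := by
    rw [Nat.cast_sub ht]; ring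
  rw [e, h.per] at h1
  have h2 := w.d_tri (ζ s) (ζ (s + t)) (x * ζ s)
  have h3 := hx (ζ s)
  have e3 : w.len ((ζ s)⁻¹ * x * ζ s) = w.d (ζ s) (x * ζ s) := by
    unfold GH.d; rw [mul_assoc]
  rw [e3] at h3
  omega

end per

/-- the length of a rescaled element -/
theorem F_le {G : Type} [Group G] {w F : GH G} {κ : ℕ} (hκ : 1 ≤ κ)
    (h : ∀ g, F.len g = (w.len g + κ - 1) / κ) {g : G} {k : ℕ} (hg : w.len g ≤ k * κ) :
    F.len g ≤ k := by
  rw [h]
  have : (w.len g + κ - 1) / κ < k + 1 := by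
    rw [Nat.div_lt_iff_lt_mul (by omega)]
    have : (k + 1) * κ = k * κ + κ := by ring
    omega
  omega

theorem F_ge {G : Type} [Group G] {w F : GH G} {κ : ℕ} (hκ : 1 ≤ κ)
    (h : ∀ g, F.len g = (w.len g + κ - 1) / κ) {g : G} {k : ℕ} (hg : k + 1 ≤ F.len g) :
    k * κ ≤ w.len g := by
  rw [h] at hg
  rw [Nat.le_div_iff_mul_le (by omega)] at hg
  have : (k + 1) * κ = k * κ + κ := by ring
  omega

theorem D_le {G : Type} [Group G] {F : GH G} (L : LS F 1100 234003 2) (i : L.ι) (u p q : G) :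
    L.D i u p q ≤ F.d p q + 1100 := by
  by_contra hc
  push Not at hc
  have := L.wf_proj_s i u p q (by omega)
  omega

theorem s_le {G : Type} [Group G] {F : GH G} (L : LS F 1100 234003 2) (i : L.ι) (u p q : G) :
    (L.s i u p q).natAbs ≤ 2 * L.D i u p q := L.wf_lin_z i _

/-- the displacement of an initial part of a relator along the relator lines -/
theorem s_rel {G : Type} [Group G] {w : GH G} {κ n : ℕ} {F : GH G}
    {L : LS F 1100 234003 2} {X : Set G} {M : Subgroup G} (C : Ctx w κ n L X M) {x : G}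
    (hx : x ∈ X) {ζ : ℤ → G} (hζ : Per w x ζ) (s : ℤ) (t : ℕ) (ht : 2 * t ≤ (n + 2) * w.len x)
    (i : L.ι) (u : G) :
    2 * |L.s i u (ζ s) (ζ (s + t))| ≤ (n : ℤ) + 10 ^ 6 := by
  have hκ := C.hκ
  have hκ1 : 1 ≤ κ := by omega
  have hlo := C.lo x hx
  have hhi := C.hi x hx
  have hcm := C.cmin x hx
  have hn := C.hn
  obtain ⟨j, v, hv⟩ := C.cov x hx
  -- the same length
  have hj := C.mem j
  have hjl : w.len (L.x j) = w.len x := by
    apply le_antisymm
    · rcases hv with hv | hv
      · have := C.cmin _ hj v⁻¹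
        rwa [inv_inv, ← hv] at this
      · have h1 := C.cmin _ hj v⁻¹
        have e : w.len (v⁻¹⁻¹ * L.x j * v⁻¹) = w.len x := by
          rw [hv, ← w.len_inv]; congr 1; group
        rwa [e] at h1
    · rcases hv with hv | hv
      · have := hcm v
        rwa [show v⁻¹ * x * v = L.x j by rw [hv]; group] at this
      · have := hcm v
        rwa [show v⁻¹ * x * v = (L.x j)⁻¹ by rw [hv]; group, w.len_inv] at this
  -- the power
  set l := w.len x with hl
  have hl0 : 0 < l := by omega
  set a := t / l with ha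
  set b := t % l with hb
  have hab : t = b + a * l := by
    have := Nat.mod_add_div t l
    rw [← hb, ← ha] at this
    rw [mul_comm]; omega
  have hbl : b < l := Nat.mod_lt _ hl0
  have ez : ζ (s + t) = x ^ a * ζ (s + b) := by
    have := per_pow hζ (s + b) a
    rw [← this]
    congr 1
    rw [hab]
    push_cast
    ring
  have ha2 : 2 * a ≤ n + 2 := by
    by_contra hc
    push Not at hc
    have h1 : (n + 3) * l ≤ 2 * a * l := Nat.mul_le_mul_right _ (by omega)
    have h2 : (n + 3) * l = (n + 2) * l + l := by ring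
    have h3 : 2 * t = 2 * b + 2 * a * l := by rw [hab]; ring
    omega
  -- the last part
  have hlast : L.D i u (x ^ a * ζ s) (ζ (s + t)) ≤ 1105 := by
    have h1 := D_le L i u (x ^ a * ζ s) (ζ (s + t))
    have h2 : F.d (x ^ a * ζ s) (ζ (s + t)) ≤ 5 := by
      rw [ez, F.d_mul]
      apply F_le hκ1 C.resc
      have := per_le hζ s b
      unfold GH.d at this
      omega
    omega
  have hlast2 := s_le L i u (x ^ a * ζ s) (ζ (s + t))
  have hadd := L.wf_s_add i u (ζ s) (x ^ a * ζ s) (ζ (s + t))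
  -- the powers of `x`
  have hpow : ∀ k : ℤ, x ^ k = v * L.x j ^ k * v⁻¹ ∨ x ^ k = v * L.x j ^ (-k) * v⁻¹ := by
    intro k
    rcases hv with hv | hv
    · left; rw [hv, conj_zpow]
    · right; rw [hv, conj_zpow, inv_zpow, zpow_neg]
  by_cases hline : i = j ∧ u⁻¹ * v ∈ Subgroup.zpowers (L.x i)
  · obtain ⟨rfl, hk⟩ := hline
    obtain ⟨k, hk⟩ := hk
    have hk' : L.x i ^ k = u⁻¹ * v := hk
    have hv' : v = u * L.x i ^ k := by rw [hk']; group
    have hmain : |L.s i u (ζ s) (x ^ a * ζ s)| = a := by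
      have h1 : L.s i u (ζ s) (x ^ a * ζ s) = L.s i v (ζ s) (x ^ a * ζ s) := by
        rw [hv', L.wf_s_base]
      rw [h1]
      rcases hpow a with h | h
      · rw [zpow_natCast] at h
        rw [h, L.wf_s_rot]
        simp
      · rw [zpow_natCast] at h
        rw [h, L.wf_s_rot]
        simp
    have h5 : |L.s i u (ζ s) (ζ (s + t))| ≤ |L.s i u (ζ s) (x ^ a * ζ s)| +
        |L.s i u (x ^ a * ζ s) (ζ (s + t))| := by
      rw [← hadd]; exact abs_add_le _ _
    have h6 : |L.s i u (x ^ a * ζ s) (ζ (s + t))| ≤ 2210 := by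
      rw [Int.abs_eq_natAbs]
      omega
    omega
  · -- a different line
    have hline' : i = j → u⁻¹ * v ∉ Subgroup.zpowers (L.x i) := by
      intro h1 h2; exact hline ⟨h1, h2⟩
    set y := (ζ s)⁻¹ * x * ζ s with hy
    set v' := (ζ s)⁻¹ * v with hv'
    have hyl : w.len y = l := by
      have := per_geod hζ hcm s l le_rfl
      rw [hl, hζ.per] at this
      rw [hy]
      unfold GH.d at this
      rwa [← mul_assoc] at this
    have hycm : w.CMin y := by
      intro g
      rw [hyl]
      have := hcm (ζ s * g)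
      rwa [show (ζ s * g)⁻¹ * x * (ζ s * g) = g⁻¹ * y * g by rw [hy]; group] at this
    have hdv : w.d v' (y * v') ≤ w.len y := by
      rw [hyl, ← hjl]
      unfold GH.d
      have e : v'⁻¹ * (y * v') = v⁻¹ * x * v := by rw [hy, hv']; group
      rw [e]
      rcases hv with hv | hv
      · rw [hv, show v⁻¹ * (v * L.x j * v⁻¹) * v = L.x j by group]
      · rw [hv, show v⁻¹ * (v * (L.x j)⁻¹ * v⁻¹) * v = (L.x j)⁻¹ by group, w.len_inv]
    obtain ⟨r, hr⟩ := near_line w hycm (by omega) hdv
    -- the base point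
    set p0 := x ^ (-r) * v with hp0
    have hd0 : F.d (ζ s) p0 ≤ 6 := by
      apply F_le hκ1 C.resc
      have h1 : w.d v' (y ^ r) = w.len ((ζ s)⁻¹ * p0) := by
        have e1 : y ^ r = (ζ s)⁻¹ * x ^ r * ζ s := by
          rw [hy]
          have := conj_zpow (a := (ζ s)⁻¹) (b := x) (i := r)
          rwa [inv_inv] at this
        rw [w.d_comm, hv']
        unfold GH.d
        rw [e1, hp0, zpow_neg]
        congr 1
        group
      rw [← h1]
      omega
    have hon : ∀ k : ℤ, ∃ q : ℤ, x ^ k * p0 = v * L.x j ^ q := by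
      intro k
      have e1 : x ^ k * p0 = x ^ (k - r) * v := by
        rw [hp0, ← mul_assoc, ← zpow_add]; rfl
      rcases hpow (k - r) with h | h
      · exact ⟨k - r, by rw [e1, h]; group⟩
      · exact ⟨-(k - r), by rw [e1, h]; group⟩
    have h1 : L.D i u (x ^ (0 : ℤ) * p0) (x ^ (a : ℤ) * p0) ≤ 234003 := by
      obtain ⟨q1, hq1⟩ := hon 0
      obtain ⟨q2, hq2⟩ := hon a
      rw [hq1, hq2]
      exact L.wf_ov hline' _ _
    rw [zpow_zero, one_mul, zpow_natCast] at h1
    have h2 := D_le L i u (ζ s) p0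
    have h3 := D_le L i u (x ^ a * p0) (x ^ a * ζ s)
    rw [F.d_mul, F.d_comm] at h3
    have h4 := L.wf_D_tri i u (ζ s) p0 (x ^ a * p0)
    have h5 := L.wf_D_tri i u (ζ s) (x ^ a * p0) (x ^ a * ζ s)
    have h6 := L.wf_D_tri i u (ζ s) (x ^ a * ζ s) (ζ (s + t))
    have h7 := s_le L i u (ζ s) (ζ (s + t))
    rw [Int.abs_eq_natAbs]
    omega

theorem t (h2 : S_STR) : S_CIRC := by
  intro G _ w κ n F L X M _ C w' hQ x hx ζ hζ s t ht
  obtain ⟨-, -, hshort⟩ := h2 G w κ n F L X M C w' hQ
  have hκ := C.hκ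
  have hκ1 : 1 ≤ κ := by omega
  have hlo := C.lo x hx
  have hhi := C.hi x hx
  have hcm := C.cmin x hx
  have hn := C.hn
  have ed : ∀ p q : G, w'.d (p : G ⧸ M) (q : G ⧸ M) = w'.len ((p⁻¹ * q : G) : G ⧸ M) :=
    fun p q => rfl
  refine ⟨fun h => ?_, fun h => ?_⟩
  · have h1 := per_geod hζ hcm s t h
    rw [ed, hshort]
    · exact h1
    · have e : w.len ((ζ s)⁻¹ * ζ (s + t)) = t := h1
      rw [e]
      have : 10 ^ 12 * κ ≤ n * κ := Nat.mul_le_mul_right _ hn
      omega
  · -- the length of the word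
    set z := (ζ s)⁻¹ * ζ (s + t) with hz
    rw [ed, ← hz]
    have hzl : κ ≤ 2 * w.len z := by
      set l := w.len x with hl
      have hl0 : 0 < l := by omega
      set a := t / l with ha
      set b := t % l with hb
      have hab : t = b + a * l := by
        have := Nat.mod_add_div t l
        rw [← hb, ← ha] at this
        rw [mul_comm]; omega
      have hbl : b < l := Nat.mod_lt _ hl0
      have ha1 : 1 ≤ a := (Nat.one_le_div_iff hl0).2 h
      set y := (ζ s)⁻¹ * x * ζ s with hy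
      have hyl : w.len y = l := by
        have := per_geod hζ hcm s l le_rfl
        rw [hl, hζ.per] at this
        rw [hy]
        unfold GH.d at this
        rwa [← mul_assoc] at this
      have hycm : w.CMin y := by
        intro g
        rw [hyl]
        have := hcm (ζ s * g)
        rwa [show (ζ s * g)⁻¹ * x * (ζ s * g) = g⁻¹ * y * g by rw [hy]; group] at this
      obtain ⟨hsup, -⟩ := w.sup_of_cmin hycm (by omega)
      have hyp : ∀ k : ℕ, y ^ k = (ζ s)⁻¹ * x ^ k * ζ s := by
        intro k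
        have := conj_pow (a := (ζ s)⁻¹) (b := x) (i := k)
        rwa [inv_inv] at this
      have ez : ζ (s + t) = x ^ a * ζ (s + b) := by
        have := per_pow hζ (s + b) a
        rw [← this]
        congr 1
        rw [hab]
        push_cast
        ring
      -- `y ^ (a + 1) = z * r'`
      have h1 := per_le hζ (s + b) (l - b)
      have e1 : s + (b : ℤ) + ((l - b : ℕ) : ℤ) = s + w.len x := by
        rw [Nat.cast_sub hbl.le]; ring
      rw [e1, hζ.per] at h1
      have h3 : w.len (y ^ (a + 1)) ≤ w.len z + (l - b) := by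
        have e2 : y ^ (a + 1) = z * ((ζ (s + b))⁻¹ * (x * ζ s)) := by
          rw [hyp, hz, ez, pow_succ]; group
        rw [e2]
        exact (w.len_mul _ _).trans (Nat.add_le_add_left h1 _)
      have h4 := hsup a 1
      have h5 := hsup 1 (a - 1)
      rw [pow_one] at h4 h5
      rw [show 1 + (a - 1) = a by omega] at h5
      omega
    obtain ⟨g', hg1, hg2⟩ := hQ.lift (z : G ⧸ M)
    rw [← hg2]
    have hm : g' * z⁻¹ ∈ M := by
      have h1 : z⁻¹ * g' ∈ M := QuotientGroup.eq.1 hg1.symm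
      have h3 := C.fil.normal.conj_mem _ h1 z
      rwa [show z * (z⁻¹ * g') * z⁻¹ = g' * z⁻¹ by group] at h3
    by_cases hm1 : g' * z⁻¹ = 1
    · have : g' = z := by
        rw [mul_inv_eq_one] at hm1; exact hm1
      rw [this]
      omega
    · obtain ⟨i, u, hiu⟩ := C.fil.gr _ hm hm1 z
      rw [inv_mul_cancel_right] at hiu
      have hthr : L.thr = 472408 := rfl
      rw [hthr] at hiu
      have hs := s_rel C hx hζ s t ht i (ζ s * u)
      have e1 : L.s i (ζ s * u) (ζ s) (ζ (s + t)) = L.s i u 1 z := by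
        have := L.wf_s_mul i (ζ s) u 1 z
        rw [mul_one, hz, mul_inv_cancel_left] at this
        rw [this, hz]
      rw [e1] at hs
      have hadd := L.wf_s_add i u 1 z g'
      have h3 : |L.s i u z g'| ≤ |L.s i u 1 z| + |L.s i u 1 g'| := by
        have : L.s i u z g' = L.s i u 1 g' - L.s i u 1 z := by omega
        rw [this, add_comm]
        exact abs_sub _ _
      have h4 := s_le L i u 1 g'
      have h5 := D_le L i u 1 g'
      rw [F.d_one] at h5
      rw [Int.abs_eq_natAbs (L.s i u 1 g')] at h3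
      have h6 := F_ge hκ1 C.resc (g := g') (k := 1) (by omega)
      omega

end Pool.Agent.Y179.SM.Circ
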