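import Pool.Agent.Y179.SM.PerL

/-!
# Job SM-CCM (helper179): a conjugate of minimal length and its periodic path
-/

set_option autoImplicit false

namespace Pool.Agent.Y179.SM.Ccm

open Pool.Agent.TH54.BU Pool.Agent.Y33.SM Pool.Agent.Y179.SM.Circ Pool.Agent.Y179.SM.PerL

variable {G : Type} [Group G] {w : GH G}

theorem vx_even (u x0 : G) (a : ℤ) : Vx u x0 (2 * a) = x0 ^ a := by
  unfold Vx
  rw [Int.mul_ediv_cancel_left _ (by norm_num), Int.mul_emod_right]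
  simp

theorem vx_one (u x0 : G) : Vx u x0 1 = u := by
  unfold Vx
  norm_num

theorem vx_zero (u x0 : G) : Vx u x0 0 = 1 := by
  unfold Vx
  norm_num

/-- the data -/
structure Dat (w : GH G) (C : ℕ) (u x0 v x : G) (ζ : ℤ → G) : Prop where
  btw : ∀ a b c : ℤ, a ≤ b → b ≤ c →
    w.d (Vx u x0 a) (Vx u x0 b) + w.d (Vx u x0 b) (Vx u x0 c) ≤ w.d (Vx u x0 a) (Vx u x0 c) + C
  lx0 : C + 1 ≤ w.len x0
  cj : x0 = v * x * v⁻¹
  cm : w.CMin x
  lx : 4 * w.D + 4 ≤ w.len x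
  per : Per w x ζ

theorem sup_of_btw {C : ℕ} {u x0 : G} (btw : ∀ a b c : ℤ, a ≤ b → b ≤ c →
    w.d (Vx u x0 a) (Vx u x0 b) + w.d (Vx u x0 b) (Vx u x0 c) ≤
      w.d (Vx u x0 a) (Vx u x0 c) + C) : w.Sup C x0 := by
  intro a b
  have h := btw 0 (2 * (a : ℤ)) (2 * ((a + b : ℕ) : ℤ)) (by omega) (by push_cast; omega)
  rw [vx_zero, vx_even, vx_even, w.d_one, w.d_one, zpow_natCast, zpow_natCast] at h
  have e : w.d (x0 ^ a) (x0 ^ (a + b)) = w.len (x0 ^ b) := by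
    unfold GH.d
    rw [pow_add, inv_mul_cancel_left]
  rwa [e] at h

section dat

variable {C : ℕ} {u x0 v x : G} {ζ : ℤ → G} (Q : Dat w C u x0 v x ζ)

include Q

theorem Dat.sup : w.Sup C x0 := sup_of_btw Q.btw

theorem Dat.pw (N : ℕ) : x0 ^ N * v = v * x ^ N := by
  rw [Q.cj, conj_pow]; group

theorem Dat.zN (N : ℕ) : ζ ((N * w.len x : ℕ) : ℤ) = x ^ N := by
  have := per_pow Q.per 0 N
  rwa [zero_add, Q.per.zero, mul_one] at this

theorem Dat.zN' (N : ℕ) : ζ (-((N * w.len x : ℕ) : ℤ)) = (x ^ N)⁻¹ := by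
  have := per_neg Q.per 0 N
  rwa [zero_sub, Q.per.zero, mul_one] at this

theorem Dat.dA (N : ℕ) : w.d (x0 ^ N)⁻¹ (v * ζ (-((N * w.len x : ℕ) : ℤ))) = w.len v := by
  rw [Q.zN']
  have : v * (x ^ N)⁻¹ = (x0 ^ N)⁻¹ * v := by
    rw [eq_inv_mul_iff_mul_eq, ← mul_assoc, Q.pw]; group
  rw [this]
  unfold GH.d
  congr 1
  group

theorem Dat.dB (N : ℕ) : w.d (x0 ^ N) (v * ζ ((N * w.len x : ℕ) : ℤ)) = w.len v := by
  rw [Q.zN, ← Q.pw]
  unfold GH.d
  congr 1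
  group

theorem Dat.Vbtw (N : ℕ) {a : ℤ} (h1 : -(2 * (N : ℤ)) ≤ a) (h2 : a ≤ 2 * (N : ℤ)) :
    w.d (x0 ^ N)⁻¹ (Vx u x0 a) + w.d (Vx u x0 a) (x0 ^ N) ≤ w.d (x0 ^ N)⁻¹ (x0 ^ N) + C := by
  have h := Q.btw (2 * (-(N : ℤ))) a (2 * (N : ℤ)) (by omega) h2
  rwa [vx_even, vx_even, zpow_neg, zpow_natCast] at h

theorem Dat.Zbtw (N : ℕ) {j : ℤ} (h1 : -((N * w.len x : ℕ) : ℤ) ≤ j)
    (h2 : j ≤ ((N * w.len x : ℕ) : ℤ)) :
    w.d (v * ζ (-((N * w.len x : ℕ) : ℤ))) (v * ζ j) +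
      w.d (v * ζ j) (v * ζ ((N * w.len x : ℕ) : ℤ)) ≤
      w.d (v * ζ (-((N * w.len x : ℕ) : ℤ))) (v * ζ ((N * w.len x : ℕ) : ℤ)) + 6 * w.D := by
  rw [w.d_mul, w.d_mul, w.d_mul]
  exact per_add' Q.per Q.cm Q.lx h1 h2

/-- the points of the path are near the broken line -/
theorem Dat.nearV (j : ℤ) : ∃ a : ℤ, w.d (Vx u x0 a) (v * ζ j) +
    w.d (v * ζ j) (Vx u x0 (a + 1)) ≤ w.d (Vx u x0 a) (Vx u x0 (a + 1)) +
      (18 * w.D + 2 * C) := by
  obtain ⟨N, hN⟩ : ∃ N : ℕ, N = j.natAbs + w.len v + 8 * w.D + C + 8 := ⟨_, rfl⟩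
  have hl := Q.lx
  have hNl : 4 * N ≤ N * w.len x := by
    rw [mul_comm]; exact Nat.mul_le_mul_left _ (by omega)
  have hz := Q.Zbtw N (j := j) (by omega) (by omega)
  have hA := Q.dA N
  have hB := Q.dB N
  have l1 := per_low' Q.per Q.cm Q.lx (i := -((N * w.len x : ℕ) : ℤ)) (j := j) (by omega)
  have l2 := per_low' Q.per Q.cm Q.lx (i := j) (j := ((N * w.len x : ℕ) : ℤ)) (by omega)
  rw [← w.d_mul v] at l1 l2
  have h := trans2 (w := w) (r := w.len v) (by rw [w.d_comm]; exact hA.le)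
    (by rw [w.d_comm]; exact hB.le) hz (by omega) (by omega)
  set A := (x0 ^ N)⁻¹ with hAdef
  set B := x0 ^ N with hBdef
  set q := v * ζ j with hq
  have key := stepn (fun n : ℕ => w.d A (Vx u x0 (-(2 * (N : ℤ)) + n)) ≤ w.d A q)
    (by
      have e : Vx u x0 (-(2 * (N : ℤ)) + ((0 : ℕ) : ℤ)) = A := by
        rw [Nat.cast_zero, add_zero, show -(2 * (N : ℤ)) = 2 * (-(N : ℤ)) by ring, vx_even,
          zpow_neg, zpow_natCast]
      simp only [e, w.d_self]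
      exact Nat.zero_le _) (4 * N)
  rcases key with ⟨n, hn, k1, k2⟩ | k1
  · refine ⟨-(2 * (N : ℤ)) + n, ?_⟩
    have ecast : -(2 * (N : ℤ)) + n + 1 = -(2 * (N : ℤ)) + ((n + 1 : ℕ) : ℤ) := by
      push_cast; ring
    rw [ecast]
    push Not at k2
    have v1 := Q.Vbtw N (a := -(2 * (N : ℤ)) + n) (by omega) (by omega)
    have v2 := Q.Vbtw N (a := -(2 * (N : ℤ)) + ((n + 1 : ℕ) : ℤ)) (by push_cast; omega)
      (by push_cast; omega)
    rw [← hAdef, ← hBdef] at v1 v2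
    have n1 := w.nr (a := A) (b := B) (x := q) (y := Vx u x0 (-(2 * (N : ℤ)) + n))
      (c := 8 * w.D + C) (by omega) (by omega)
    have n2 := w.nr (a := A) (b := B) (x := q)
      (y := Vx u x0 (-(2 * (N : ℤ)) + ((n + 1 : ℕ) : ℤ)))
      (c := 8 * w.D + C) (by omega) (by omega)
    have t1 := w.d_tri A (Vx u x0 (-(2 * (N : ℤ)) + n))
      (Vx u x0 (-(2 * (N : ℤ)) + ((n + 1 : ℕ) : ℤ)))
    have c1 := w.d_comm (Vx u x0 (-(2 * (N : ℤ)) + n)) q
    omega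
  · refine ⟨2 * (N : ℤ), ?_⟩
    have e : -(2 * (N : ℤ)) + ((4 * N : ℕ) : ℤ) = 2 * (N : ℤ) := by push_cast; ring
    simp only [e] at k1
    rw [vx_even, zpow_natCast, ← hBdef] at k1 ⊢
    have t1 := w.d_tri q B (Vx u x0 (2 * (N : ℤ) + 1))
    have c1 := w.d_comm B q
    omega

/-- the points between `V 0` and `V 1` are near the path -/
theorem Dat.nearZ {N : ℕ} (hN : w.len u + 2 * w.len v + 2 * C + 10 * w.D + 10 ≤ N) {q : G}
    (h1 : w.len q ≤ w.len u) (h2 : w.d 1 q + w.d q u ≤ w.d 1 u) :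
    (w.d (v * ζ (-((N * w.len x : ℕ) : ℤ))) q + w.d q (v * ζ ((N * w.len x : ℕ) : ℤ)) ≤
      w.d (v * ζ (-((N * w.len x : ℕ) : ℤ))) (v * ζ ((N * w.len x : ℕ) : ℤ)) +
        (2 * C + 2 * w.D)) ∧
    ∃ j : ℤ, -((N * w.len x : ℕ) : ℤ) ≤ j ∧ j ≤ ((N * w.len x : ℕ) : ℤ) ∧
      w.d (v * ζ (-((N * w.len x : ℕ) : ℤ))) (v * ζ j) =
        w.d (v * ζ (-((N * w.len x : ℕ) : ℤ))) q ∧ w.d q (v * ζ j) ≤ 2 * C + 7 * w.D := by
  have hl := Q.lx
  have hg := grow Q.sup Q.lx0 N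
  have hA := Q.dA N
  have hB := Q.dB N
  have v0 := Q.Vbtw N (a := 0) (by omega) (by omega)
  have v1 := Q.Vbtw N (a := 1) (by omega) (by omega)
  have b01 := Q.btw (-(2 * (N : ℤ))) 0 1 (by omega) (by omega)
  have eA : Vx u x0 (-(2 * (N : ℤ))) = (x0 ^ N)⁻¹ := by
    rw [show -(2 * (N : ℤ)) = 2 * (-(N : ℤ)) by ring, vx_even, zpow_neg, zpow_natCast]
  rw [eA] at b01
  rw [vx_zero] at v0 b01
  rw [vx_one] at v1 b01
  set A := (x0 ^ N)⁻¹ with hAdef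
  set B := x0 ^ N with hBdef
  have lA : N ≤ w.len A := by rw [hAdef, w.len_inv]; exact hg
  have dq1 : w.len A ≤ w.d A q + w.len q := by
    have := w.d_tri A q 1
    rwa [w.d_one', w.d_one'] at this
  have dq2 : w.len B ≤ w.d q B + w.len q := by
    have := w.d_tri 1 q B
    rw [w.d_one, w.d_one] at this
    omega
  have hbt : w.d A q + w.d q B ≤ w.d A B + 2 * C := by
    have t1 := w.d_tri A 1 q
    have t2 := w.d_tri q u B
    omega
  have h := trans2 (w := w) (r := w.len v) hA.le hB.le hbt (by omega) (by omega)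
  refine ⟨h, ?_⟩
  set A' := v * ζ (-((N * w.len x : ℕ) : ℤ)) with hA'
  set B' := v * ζ ((N * w.len x : ℕ) : ℤ) with hB'
  have dq3 : 2 * C + 2 * w.D ≤ w.d q B' := by
    have := w.d_tri q B' B
    rw [w.d_comm B' B] at this
    omega
  obtain ⟨n, hn1, hn2⟩ := ivt (fun n : ℕ => w.d A' (v * ζ (-((N * w.len x : ℕ) : ℤ) + n)))
    (2 * (N * w.len x)) (w.d A' q)
    (by simp only [Nat.cast_zero, add_zero]; rw [← hA', w.d_self]; exact Nat.zero_le _)
    (by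
      have e : -((N * w.len x : ℕ) : ℤ) + ((2 * (N * w.len x) : ℕ) : ℤ) =
        ((N * w.len x : ℕ) : ℤ) := by push_cast; ring
      simp only [e]
      rw [← hB']
      omega)
    (by
      intro k _
      have h3 := Q.per.step (-((N * w.len x : ℕ) : ℤ) + k)
      have e : -((N * w.len x : ℕ) : ℤ) + ((k + 1 : ℕ) : ℤ) =
        -((N * w.len x : ℕ) : ℤ) + k + 1 := by push_cast; ring
      simp only [e]
      have h4 := w.d_tri A' (v * ζ (-((N * w.len x : ℕ) : ℤ) + k))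
        (v * ζ (-((N * w.len x : ℕ) : ℤ) + k + 1))
      have h5 : w.d (v * ζ (-((N * w.len x : ℕ) : ℤ) + k))
        (v * ζ (-((N * w.len x : ℕ) : ℤ) + k + 1)) = w.d (ζ (-((N * w.len x : ℕ) : ℤ) + k))
          (ζ (-((N * w.len x : ℕ) : ℤ) + k + 1)) := w.d_mul _ _ _
      omega)
  refine ⟨-((N * w.len x : ℕ) : ℤ) + n, by omega, by omega, hn2, ?_⟩
  have hz := Q.Zbtw N (j := -((N * w.len x : ℕ) : ℤ) + n) (by omega) (by omega)
  rw [← hA', ← hB'] at hz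
  have n1 := w.nr (a := A') (b := B') (x := q) (y := v * ζ (-((N * w.len x : ℕ) : ℤ) + n))
    (c := 2 * C + 6 * w.D) (by omega) (by omega)
  omega

end dat

theorem exists_cmin (w : GH G) (x0 : G) : ∃ v : G, w.CMin (v⁻¹ * x0 * v) := by
  classical
  have hne : ∃ n, ∃ v : G, w.len (v⁻¹ * x0 * v) = n := ⟨_, 1, rfl⟩
  obtain ⟨v, hv⟩ := Nat.find_spec hne
  refine ⟨v, fun g => ?_⟩
  rw [hv]
  refine Nat.find_min' hne ⟨v * g, ?_⟩
  congr 1
  group

theorem t : S_CCM := by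
  intro G _ w h h' _ hS hS' C
  refine ⟨20 * w.D + 2 * C, 1000 * (C + w.D + 1), ?_⟩
  intro κ hκ γ hγ x0 Z
  obtain ⟨u, hu⟩ : ∃ u, u = (γ 0)⁻¹ * γ κ := ⟨_, rfl⟩
  rw [← hu] at Z
  simp only [← hu]
  obtain ⟨v, hv⟩ := exists_cmin w x0
  set x := v⁻¹ * x0 * v with hx
  have hcj : x0 = v * x * v⁻¹ := by rw [hx]; group
  have hsup : w.Sup C x0 := sup_of_btw Z.btw
  have hul := Z.hu
  -- the lengths
  have l1 : 3 * κ ≤ w.len x0 + 2 * C := by
    have h1 := Z.btw 0 1 2 (by omega) (by omega)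
    have e2 : Vx u x0 2 = x0 := by
      have := vx_even u x0 1
      rwa [mul_one, zpow_one] at this
    rw [vx_zero, vx_one, e2, w.d_one, w.d_one, hul] at h1
    have h2 := Z.len
    unfold GH.d at h1
    omega
  have l2 : w.len x0 ≤ 3 * κ + 6 := by
    obtain ⟨j, j', h1, h2, h3, h4, h5, -⟩ := Z.ex
    rw [h5]
    have i1 := w.len_mul (u * h ^ j * h' ^ (2 * κ)) (h ^ j')
    have i2 := w.len_mul (u * h ^ j) (h' ^ (2 * κ))
    have i3 := w.len_mul u (h ^ j)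
    rw [hS j'] at i1
    rw [hS' (2 * κ)] at i2
    rw [hS j] at i3
    omega
  have l3 : w.len x0 ≤ w.len x + C := by
    have := w.sup_disp hsup v 1
    rw [pow_one] at this
    unfold GH.d at this
    rwa [← mul_assoc] at this
  have l4 : w.len x ≤ w.len x0 := by
    have := hv v⁻¹
    rwa [inv_inv, ← hcj] at this
  obtain ⟨ζ, hζ⟩ := exists_per w x (by omega)
  have Q : Dat w C u x0 v x ζ := ⟨Z.btw, by omega, hcj, hv, by omega, hζ⟩
  refine ⟨x, v, hcj, hv, by omega, by omega, ⟨ζ, hζ, ?_⟩, ?_⟩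
  · -- capture
    obtain ⟨N, hN⟩ : ∃ N : ℕ, N = w.len u + 2 * w.len v + 2 * C + 10 * w.D + 10 := ⟨_, rfl⟩
    have g1 := w.rg_geod_sub hγ (a := 0) (b := κ / 2) (by omega) (by omega)
    have g2 := w.rg_geod_sub hγ (a := κ / 2) (b := κ) (by omega) le_rfl
    set q1 := (γ 0)⁻¹ * γ (κ / 2) with hq1
    have d1 : w.d 1 q1 = κ / 2 := by
      rw [w.d_one]
      have : w.len q1 = w.d (γ 0) (γ (κ / 2)) := rfl
      rw [this, g1]; omega
    have d2 : w.d q1 u = κ - κ / 2 := by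
      rw [hq1, hu, w.d_mul, g2]
    have du : w.d 1 u = κ := by rw [w.d_one, hul]
    obtain ⟨a0, s, s1, s2, s3, s4⟩ := Q.nearZ (N := N) (q := 1) hN.ge
      (by rw [w.len_one]; omega) (by rw [w.d_self, zero_add])
    obtain ⟨a1, m, m1, m2, m3, m4⟩ := Q.nearZ (N := N) (q := q1) hN.ge
      (by rw [← w.d_one, d1]; omega) (by rw [d1, d2, du]; omega)
    obtain ⟨a2, r, r1, r2, r3, r4⟩ := Q.nearZ (N := N) (q := u) hN.ge le_rfl
      (by rw [w.d_self, add_zero])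
    have hg := grow Q.sup Q.lx0 N
    have hA := Q.dA N
    have b01 := Q.btw (-(2 * (N : ℤ))) 0 1 (by omega) (by omega)
    have eA : Vx u x0 (-(2 * (N : ℤ))) = (x0 ^ N)⁻¹ := by
      rw [show -(2 * (N : ℤ)) = 2 * (-(N : ℤ)) by ring, vx_even, zpow_neg, zpow_natCast]
    rw [eA, vx_zero, vx_one] at b01
    set A := (x0 ^ N)⁻¹ with hAdef
    have lA : N ≤ w.len A := by rw [hAdef, w.len_inv]; exact hg
    set A' := v * ζ (-((N * w.len x : ℕ) : ℤ)) with hA'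
    set B' := v * ζ ((N * w.len x : ℕ) : ℤ) with hB'
    -- the order of the distances to `A'`
    have e1 : w.d A 1 + w.d 1 q1 ≤ w.d A q1 + C := by
      have := w.d_tri A q1 u
      omega
    have e2 : w.d A q1 + w.d q1 u ≤ w.d A u + C := by
      have := w.d_tri A 1 q1
      omega
    have dA1 : w.len A = w.d A 1 := (w.d_one' _).symm
    have dAq : w.len A ≤ w.d A q1 + κ := by
      have h3 := w.d_tri A q1 1
      rw [w.d_comm q1 1] at h3
      omega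
    have f1 := w.tr1 e1 hA.le (by omega)
    have f2 := w.tr1 e2 hA.le (by omega)
    -- the order
    have o1 : s ≤ m := by
      by_contra hc
      push Not at hc
      have h3 := per_add' Q.per Q.cm Q.lx m1 hc.le
      rw [← w.d_mul v, ← w.d_mul v (ζ m) (ζ s), ← w.d_mul v (ζ (-_)) (ζ s), ← hA'] at h3
      omega
    have o2 : m ≤ r := by
      by_contra hc
      push Not at hc
      have h3 := per_add' Q.per Q.cm Q.lx r1 hc.le
      rw [← w.d_mul v, ← w.d_mul v (ζ r) (ζ m), ← w.d_mul v (ζ (-_)) (ζ m), ← hA'] at h3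
      omega
    have p1 := per_le' hζ o1
    have p2 := per_le' hζ o2
    have p3 := per_low' hζ hv Q.lx (o1.trans o2)
    rw [← w.d_mul v] at p1 p2 p3
    have x1 := w.d_tri 1 (v * ζ s) q1
    have x2 := w.d_tri (v * ζ s) (v * ζ m) q1
    have x3 := w.d_tri q1 (v * ζ m) u
    have x4 := w.d_tri (v * ζ m) (v * ζ r) u
    have x5 := w.d_tri (v * ζ s) 1 (v * ζ r)
    have x6 := w.d_tri 1 u (v * ζ r)
    rw [w.d_comm (v * ζ m) q1] at x2
    rw [w.d_comm (v * ζ r) u] at x4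
    rw [w.d_comm (v * ζ s) 1] at x5
    refine ⟨γ 0 * v, s, m, r, 0, κ / 2, κ, Or.inl ⟨by omega, by omega⟩, by omega, le_rfl,
      by omega, by omega, by omega, ?_, ?_, ?_⟩
    · have : w.d (γ 0) (γ 0 * v * ζ s) = w.d 1 (v * ζ s) := by
        rw [mul_assoc]
        conv_lhs => rw [← mul_one (γ 0), mul_assoc, w.d_mul, one_mul]
      rw [this]; omega
    · have : w.d (γ (κ / 2)) (γ 0 * v * ζ m) = w.d q1 (v * ζ m) := by
        rw [hq1, ← w.d_mul (γ 0) ((γ 0)⁻¹ * _), mul_inv_cancel_left, mul_assoc]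
      rw [this]; omega
    · have : w.d (γ κ) (γ 0 * v * ζ r) = w.d u (v * ζ r) := by
        rw [hu, ← w.d_mul (γ 0) ((γ 0)⁻¹ * _), mul_inv_cancel_left, mul_assoc]
      rw [this]; omega
  · intro p
    have hp : ∃ j : ℤ, ζ j = x ^ p := by
      rcases Int.eq_nat_or_neg p with ⟨n, rfl | rfl⟩
      · exact ⟨_, by rw [Q.zN, zpow_natCast]⟩
      · exact ⟨_, by rw [Q.zN', zpow_neg, zpow_natCast]⟩
    obtain ⟨j, hj⟩ := hp
    obtain ⟨a, ha⟩ := Q.nearV j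
    rw [hj] at ha
    exact ⟨a, by omega⟩

end Pool.Agent.Y179.SM.Ccm
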