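import Pool.Agent.Y179.SM.Ccm
import Pool.Agent.TH54.BU.Cent

/-!
# Job SM-CPR (helper179): `x0` is primitive
-/

set_option autoImplicit false

namespace Pool.Agent.Y179.SM.Cpr

open Pool.Agent.TH54.BU Pool.Agent.Y33.SM Pool.Agent.Y179.SM.Circ Pool.Agent.Y179.SM.PerL
open Pool.Agent.Y179.SM.Ccm Pool.Agent.TH54.BU.Fls

variable {G : Type} [Group G] {w : GH G}

theorem zz {z : G} {ζ : ℤ → G} (hζ : Per w z ζ) (m : ℤ) : ζ (m * w.len z) = z ^ m := by
  rcases Int.eq_nat_or_neg m with ⟨n, rfl | rfl⟩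
  · have := per_pow hζ 0 n
    rw [zero_add, hζ.zero, mul_one] at this
    rw [zpow_natCast, ← this]
    push_cast
    rfl
  · have := per_neg hζ 0 n
    rw [zero_sub, hζ.zero, mul_one] at this
    rw [zpow_neg, zpow_natCast, ← this]
    push_cast
    congr 1
    ring

theorem path_bt {z : G} {ζ : ℤ → G} {c0 : ℕ} (hs : w.Sup c0 z) (hζ : Per w z ζ)
    (hz : 1 ≤ w.len z) (M : ℕ) {j : ℤ} (h1 : -((M : ℤ) * w.len z) ≤ j)
    (h2 : j ≤ (M : ℤ) * w.len z) :
    w.d (z ^ (-(M : ℤ))) (ζ j) + w.d (ζ j) (z ^ (M : ℤ)) ≤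
      w.d (z ^ (-(M : ℤ))) (z ^ (M : ℤ)) + 2 * c0 := by
  rcases h2.eq_or_lt with h2 | h2
  · rw [h2, zz hζ, w.d_self]
    omega
  have hl : (0 : ℤ) < w.len z := by exact_mod_cast hz
  have hr0 := Int.emod_nonneg j hl.ne'
  have hr1 := Int.emod_lt_of_pos j hl
  have hj := Int.mul_ediv_add_emod j (w.len z)
  obtain ⟨q, hq⟩ : ∃ q, q = j / w.len z := ⟨_, rfl⟩
  obtain ⟨r, hr⟩ : ∃ r, r = j % w.len z := ⟨_, rfl⟩
  rw [← hq, ← hr] at hj
  rw [← hr] at hr0 hr1
  have hq1 : -(M : ℤ) ≤ q := by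
    by_contra hc
    push Not at hc
    have : (w.len z : ℤ) * q ≤ w.len z * (-(M : ℤ) - 1) :=
      mul_le_mul_of_nonneg_left (by omega) hl.le
    have e : (w.len z : ℤ) * (-(M : ℤ) - 1) = -((M : ℤ) * w.len z) - w.len z := by ring
    omega
  have hq2 : q < M := by
    by_contra hc
    push Not at hc
    have : (w.len z : ℤ) * M ≤ w.len z * q := mul_le_mul_of_nonneg_left hc hl.le
    have e : (w.len z : ℤ) * M = (M : ℤ) * w.len z := by ring
    omega
  obtain ⟨a, ha⟩ : ∃ a : ℕ, (a : ℤ) = M + q := ⟨(M + q).toNat, by omega⟩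
  obtain ⟨b, hb⟩ : ∃ b : ℕ, (b : ℤ) = M - q - 1 := ⟨(M - q - 1).toNat, by omega⟩
  have e1 : w.d (z ^ (-(M : ℤ))) (z ^ q) = w.len (z ^ a) := by
    rw [w.pax_d_zpow, show q - -(M : ℤ) = (a : ℤ) by omega, zpow_natCast]
  have e2 : w.d (z ^ (-(M : ℤ))) (z ^ (q + 1)) = w.len (z ^ (a + 1)) := by
    rw [w.pax_d_zpow, show q + 1 - -(M : ℤ) = ((a + 1 : ℕ) : ℤ) by push_cast; omega,
      zpow_natCast]
  have e3 : w.d (z ^ (q + 1)) (z ^ (M : ℤ)) = w.len (z ^ b) := by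
    rw [w.pax_d_zpow, show (M : ℤ) - (q + 1) = (b : ℤ) by omega, zpow_natCast]
  have e4 : w.d (z ^ (-(M : ℤ))) (z ^ (M : ℤ)) = w.len (z ^ (a + 1 + b)) := by
    rw [w.pax_d_zpow, show (M : ℤ) - -(M : ℤ) = ((a + 1 + b : ℕ) : ℤ) by push_cast; omega,
      zpow_natCast]
  have s1 := hs a 1
  have s2 := hs (a + 1) b
  rw [pow_one] at s1
  have p1 := per_le' hζ (i := q * w.len z) (j := j) (by rw [mul_comm]; omega)
  have p2 := per_le' hζ (i := j) (j := (q + 1) * w.len z) (by rw [add_mul, mul_comm]; omega)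
  rw [zz hζ] at p1 p2
  have t1 := w.d_tri (z ^ (-(M : ℤ))) (z ^ q) (ζ j)
  have t2 := w.d_tri (ζ j) (z ^ (q + 1)) (z ^ (M : ℤ))
  have e5 : (q + 1) * (w.len z : ℤ) = w.len z * q + w.len z := by ring
  have e6 : q * (w.len z : ℤ) = w.len z * q := by ring
  rw [e5] at p2
  rw [e6] at p1
  omega

/-- almost between points are near the periodic path of a root -/
theorem near_path {z s x0 : G} {c0 k : ℕ} {ζ : ℤ → G} (hs : w.Sup c0 z) (hζ : Per w z ζ)
    (hz : 1 ≤ w.len z) (hx : x0 = s * z ^ k * s⁻¹) {N c : ℕ} {q : G}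
    (hq : w.d (x0 ^ N)⁻¹ q + w.d q (x0 ^ N) ≤ w.d (x0 ^ N)⁻¹ (x0 ^ N) + c)
    (h1 : 2 * w.len s + c + 2 * w.D < w.d (x0 ^ N)⁻¹ q)
    (h2 : 2 * w.len s + c + 2 * w.D < w.d q (x0 ^ N)) :
    ∃ j : ℤ, w.d q (s * ζ j) ≤ c + 2 * c0 + 3 * w.D := by
  have hpw : x0 ^ N = s * z ^ ((k * N : ℕ) : ℤ) * s⁻¹ := by
    rw [hx, conj_pow, zpow_natCast, pow_mul]
  have hpw' : (x0 ^ N)⁻¹ = s * z ^ (-((k * N : ℕ) : ℤ)) * s⁻¹ := by
    rw [hpw, zpow_neg]; group
  have dA : w.d (x0 ^ N)⁻¹ (s * z ^ (-((k * N : ℕ) : ℤ))) = w.len s := by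
    rw [hpw']
    unfold GH.d
    congr 1
    group
  have dB : w.d (x0 ^ N) (s * z ^ ((k * N : ℕ) : ℤ)) = w.len s := by
    rw [hpw]
    unfold GH.d
    congr 1
    group
  set A := (x0 ^ N)⁻¹
  set B := x0 ^ N
  obtain ⟨M, hM⟩ : ∃ M, M = k * N := ⟨_, rfl⟩
  rw [← hM] at dA dB
  have h := trans2 (w := w) (r := w.len s) dA.le dB.le hq (by omega) (by omega)
  obtain ⟨A', hA'⟩ : ∃ A', A' = s * z ^ (-(M : ℤ)) := ⟨_, rfl⟩
  obtain ⟨B', hB'⟩ : ∃ B', B' = s * z ^ (M : ℤ) := ⟨_, rfl⟩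
  rw [← hA', ← hB'] at h
  rw [← hA'] at dA
  rw [← hB'] at dB
  have dq : c + 2 * w.D ≤ w.d q B' := by
    have := w.d_tri q B' B
    rw [w.d_comm B' B] at this
    omega
  obtain ⟨n, hn1, hn2⟩ := ivt (fun n : ℕ => w.d A' (s * ζ (-(M : ℤ) * w.len z + n)))
    (2 * (M * w.len z)) (w.d A' q)
    (by simp only [Nat.cast_zero, add_zero]; rw [zz hζ, ← hA', w.d_self]; exact Nat.zero_le _)
    (by
      have e : -(M : ℤ) * w.len z + ((2 * (M * w.len z) : ℕ) : ℤ) =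
        (M : ℤ) * w.len z := by push_cast; ring
      simp only [e]
      rw [zz hζ, ← hB']
      omega)
    (by
      intro k _
      have h3 := hζ.step (-(M : ℤ) * w.len z + k)
      have e : -(M : ℤ) * w.len z + ((k + 1 : ℕ) : ℤ) =
        -(M : ℤ) * w.len z + k + 1 := by push_cast; ring
      simp only [e]
      have h4 := w.d_tri A' (s * ζ (-(M : ℤ) * w.len z + k))
        (s * ζ (-(M : ℤ) * w.len z + k + 1))
      have h5 : w.d (s * ζ (-(M : ℤ) * w.len z + k)) (s * ζ (-(M : ℤ) * w.len z + k + 1)) =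
        w.d (ζ (-(M : ℤ) * w.len z + k)) (ζ (-(M : ℤ) * w.len z + k + 1)) := w.d_mul _ _ _
      omega)
  refine ⟨-(M : ℤ) * w.len z + n, ?_⟩
  have hn1' : (n : ℤ) ≤ 2 * ((M : ℤ) * w.len z) := by exact_mod_cast hn1
  have ee : -(M : ℤ) * w.len z = -((M : ℤ) * w.len z) := by ring
  have hb := path_bt hs hζ hz M (j := -(M : ℤ) * w.len z + n) (by omega) (by omega)
  rw [← w.d_mul s, ← w.d_mul s (ζ _), ← w.d_mul s (z ^ (-(M : ℤ))) (z ^ (M : ℤ)), ← hA',
    ← hB'] at hb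
  have n1 := w.nr (a := A') (b := B') (x := q) (y := s * ζ (-(M : ℤ) * w.len z + n))
    (c := c + 2 * c0 + 2 * w.D) (by omega) (by omega)
  omega

/-- the length of a root -/
theorem root_len {z s x0 : G} {c0 k : ℕ} (hs : w.Sup c0 z) (hk : 2 ≤ k)
    (hx : x0 = s * z ^ k * s⁻¹) : 2 * w.len z ≤ w.len x0 + 2 * c0 := by
  by_contra hc
  push Not at hc
  obtain ⟨N, hN⟩ : ∃ N, N = 2 * w.len s + 1 := ⟨_, rfl⟩
  have h1 := w.sup_len_mul hs 1 (k * N - 1)
  have hkN : 1 ≤ k * N := Nat.one_le_iff_ne_zero.2 (Nat.mul_ne_zero (by omega) (by omega))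
  rw [pow_one, one_mul, show k * N - 1 + 1 = k * N by omega] at h1
  have h2 : w.len (z ^ (k * N)) ≤ 2 * w.len s + N * w.len x0 := by
    have e : z ^ (k * N) = s⁻¹ * x0 ^ N * s := by
      rw [hx, conj_pow, ← pow_mul]; group
    rw [e]
    have i1 := w.len_mul (s⁻¹ * x0 ^ N) s
    have i2 := w.len_mul s⁻¹ (x0 ^ N)
    have i3 := w.len_pow_le x0 N
    rw [w.len_inv] at i2
    omega
  -- `k N (len z - c0) ≤ 2 len s + N len x0`
  have hz : c0 + 1 ≤ w.len z := by omega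
  obtain ⟨e, he⟩ : ∃ e, w.len z = c0 + e := ⟨w.len z - c0, by omega⟩
  have h3 : k * N * w.len z = k * N * c0 + k * N * e := by rw [he]; ring
  have h4 : (k * N - 1) * c0 ≤ k * N * c0 := Nat.mul_le_mul_right _ (by omega)
  have h5 : 2 * N * e ≤ k * N * e :=
    Nat.mul_le_mul_right _ (Nat.mul_le_mul_right _ hk)
  have h6 : N * (w.len x0 + 1) ≤ N * (2 * e) := Nat.mul_le_mul_left _ (by omega)
  have h7 : 2 * N * e = N * (2 * e) := by ring
  have h8 : N * (w.len x0 + 1) = N * w.len x0 + N := by ring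
  omega

theorem prim_inv {x : G} (hx : Prim x) : Prim x⁻¹ := by
  refine ⟨fun h => hx.1 (by rwa [isOfFinOrder_inv_iff] at h), fun a ha => ?_⟩
  rw [Subgroup.zpowers_inv]
  apply hx.2
  have h1 : x * (a * x⁻¹) * x = x * (x⁻¹ * a) * x := by rw [ha]
  calc a * x = x * (x⁻¹ * a) * x := by group
    _ = x * (a * x⁻¹) * x := h1.symm
    _ = x * a := by group

/-- the main argument: `x0` is not a proper power -/
theorem no_root {T : ℕ} (nw : NW w) (hT : w.Stab T) (hA : ∀ K : ℕ, ∃ B : ℕ, w.Acy K B)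
    {h h' : G} (hS : Str w h) (hS' : Str w h') (C : ℕ) : ∃ κ0 : ℕ, ∀ κ : ℕ, κ0 ≤ κ →
      ∀ u x0 : G, Zig w h h' C κ u x0 → ∀ (z1 : G) (k : ℕ), 2 ≤ k → x0 = z1 ^ k → False := by
  obtain ⟨c0, hc0⟩ : ∃ c0, c0 = 20 * w.D + 20 := ⟨_, rfl⟩
  obtain ⟨c1, hc1⟩ : ∃ c1, c1 = 2 * C + 12 := ⟨_, rfl⟩
  obtain ⟨E, hE⟩ : ∃ E, E = c1 + 2 * c0 + 3 * w.D := ⟨_, rfl⟩
  obtain ⟨c3, hc3⟩ : ∃ c3, c3 = 3 * c1 + 4 * w.D := ⟨_, rfl⟩
  obtain ⟨B, hB⟩ := hA (2 * c3 + 1 + (100 * w.D + 100))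
  refine ⟨100 * (C + w.D + B + E + c0 + 10), ?_⟩
  intro κ hκ u x0 Z z1 k hk hx0
  obtain ⟨j, j', hj1, hj3, hj1', hj3', hxe, hne⟩ := Z.ex
  have hul := Z.hu
  -- the length of `x0`
  have l1 : 3 * κ ≤ w.len x0 + 2 * C := by
    have h1 := Z.btw 0 1 2 (by omega) (by omega)
    have e2 : Vx u x0 2 = x0 := by
      have := vx_even u x0 1
      rwa [mul_one, zpow_one] at this
    rw [vx_zero, vx_one, e2, w.d_one, w.d_one, hul] at h1
    have h2 := Z.len
    unfold GH.d at h1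
    omega
  have l2 : w.len x0 ≤ 3 * κ + 6 := by
    rw [hxe]
    have i1 := w.len_mul (u * h ^ j * h' ^ (2 * κ)) (h ^ j')
    have i2 := w.len_mul (u * h ^ j) (h' ^ (2 * κ))
    have i3 := w.len_mul u (h ^ j)
    rw [hS j'] at i1
    rw [hS' (2 * κ)] at i2
    rw [hS j] at i3
    omega
  have hsup0 : w.Sup C x0 := sup_of_btw Z.btw
  have hx0inf : ¬ IsOfFinOrder x0 := by
    intro hf
    obtain ⟨m, hm, hm1⟩ := isOfFinOrder_iff_pow_eq_one.1 hf
    have := grow hsup0 (by omega) m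
    rw [hm1, w.len_one] at this
    omega
  have hz1inf : ¬ IsOfFinOrder z1 := by
    intro hf
    apply hx0inf
    rw [hx0]
    exact hf.pow
  -- the periodic path of `z1`
  obtain ⟨s, hs⟩ := w.axial hT hz1inf
  rw [← hc0] at hs
  obtain ⟨z, hz⟩ : ∃ z, z = s⁻¹ * z1 * s := ⟨_, rfl⟩
  rw [← hz] at hs
  have hx : x0 = s * z ^ k * s⁻¹ := by
    have e : z1 = s * z * s⁻¹ := by rw [hz]; group
    rw [hx0, e, conj_pow]
  have hzl : 1 ≤ w.len z := by
    by_contra hc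
    push Not at hc
    have h1 : z = 1 := w.eq_one _ (by omega)
    apply hx0inf
    rw [hx, h1]
    simp
  have hrl := root_len hs hk hx
  obtain ⟨ζ, hζ⟩ := exists_per w z hzl
  -- the number `N`
  obtain ⟨N, hN⟩ : ∃ N : ℕ, N = 2 * w.len z1 + w.len z1 + 2 * w.len s + 4 * κ + 4 * c1 +
    10 * w.D + 2 * C + 100 := ⟨_, rfl⟩
  have hg := grow hsup0 (by omega) N
  obtain ⟨A, hAd⟩ : ∃ A, A = (x0 ^ N)⁻¹ := ⟨_, rfl⟩
  obtain ⟨B', hBd⟩ : ∃ B', B' = x0 ^ N := ⟨_, rfl⟩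
  have lA : N ≤ w.len A := by rw [hAd, w.len_inv]; exact hg
  have lB : N ≤ w.len B' := by rw [hBd]; exact hg
  have eA : Vx u x0 (-(2 * (N : ℤ))) = A := by
    rw [show -(2 * (N : ℤ)) = 2 * (-(N : ℤ)) by ring, vx_even, zpow_neg, zpow_natCast, hAd]
  have eB : Vx u x0 (2 * (N : ℤ)) = B' := by
    rw [vx_even, zpow_natCast, hBd]
  have e2 : Vx u x0 2 = x0 := by
    have := vx_even u x0 1
    rwa [mul_one, zpow_one] at this
  have b1 := Z.btw (-(2 * (N : ℤ))) 1 2 (by omega) (by omega)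
  have b2 := Z.btw (-(2 * (N : ℤ))) 2 (2 * (N : ℤ)) (by omega) (by omega)
  rw [eA, e2, vx_one] at b1
  rw [eA, e2, eB] at b2
  -- the points of the segment
  obtain ⟨g, hg'⟩ : ∃ g, g = u * h ^ j := ⟨_, rfl⟩
  obtain ⟨p, hp⟩ : ∃ p : ℕ → G, p = fun i => g * h' ^ i := ⟨_, rfl⟩
  have hp' : ∀ i, p i = g * h' ^ i := fun i => by rw [hp]
  have dpp : ∀ i i', i ≤ i' → w.d (p i) (p i') = i' - i := by
    intro i i' hii
    rw [hp', hp', w.d_mul]
    unfold GH.d
    obtain ⟨m, rfl⟩ := Nat.exists_eq_add_of_le hii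
    rw [pow_add, inv_mul_cancel_left, hS']
    omega
  have du0 : w.d u (p 0) = j := by
    rw [hp', hg', pow_zero, mul_one]
    unfold GH.d
    rw [inv_mul_cancel_left, hS]
  have dxk : w.d (p (2 * κ)) x0 = j' := by
    rw [hp', hg', hxe]
    unfold GH.d
    rw [inv_mul_cancel_left, hS]
  have dpk := dpp 0 (2 * κ) (by omega)
  have hdux := w.d_tri (p 0) u (p (2 * κ))
  have hdux2 := w.d_tri u x0 (p (2 * κ))
  rw [w.d_comm (p 0) u] at hdux
  rw [w.d_comm x0 (p (2 * κ))] at hdux2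
  have btwp : ∀ i, i ≤ 2 * κ → w.d A (p i) + w.d (p i) B' ≤ w.d A B' + c1 := by
    intro i hi
    have t1 := w.d_tri A u (p i)
    have t2 := w.d_tri u (p 0) (p i)
    have t3 := w.d_tri (p i) (p (2 * κ)) B'
    have t4 := w.d_tri (p (2 * κ)) x0 B'
    have t5 := dpp 0 i (by omega)
    have t6 := dpp i (2 * κ) hi
    omega
  have mono : ∀ i, i ≤ 2 * κ → w.d A (p 0) + i ≤ w.d A (p i) + c1 := by
    intro i hi
    have t1 := w.d_tri A u (p 0)
    have t3 := w.d_tri A (p (2 * κ)) x0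
    have t4 := w.d_tri A (p i) (p (2 * κ))
    have t6 := dpp i (2 * κ) hi
    omega
  have lp : ∀ i, i ≤ 2 * κ → w.len (p i) ≤ 3 * κ + 3 := by
    intro i hi
    rw [hp', hg']
    have i2 := w.len_mul (u * h ^ j) (h' ^ i)
    have i3 := w.len_mul u (h ^ j)
    rw [hS' i] at i2
    rw [hS j] at i3
    omega
  have farA : ∀ q : G, w.len A ≤ w.d A q + w.len q := by
    intro q
    have h3 := w.d_tri A q 1
    rw [w.d_one', w.d_one'] at h3
    exact h3
  have farB : ∀ q : G, w.len B' ≤ w.d q B' + w.len q := by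
    intro q
    have h3 := w.d_tri 1 q B'
    rw [w.d_one, w.d_one] at h3
    omega
  -- the displacement of `z1`
  have hdisp : w.d (p 0) (z1 * p 0) ≤ 2 * E + w.len z := by
    have f1 := farA (p 0)
    have f2 := farB (p 0)
    have f3 := lp 0 (by omega)
    have f4 := btwp 0 (by omega)
    rw [hAd, hBd] at f4
    obtain ⟨r, hr⟩ := near_path hs hζ hzl hx (N := N) (c := c1) (q := p 0) f4
      (by rw [← hAd]; omega) (by rw [← hBd]; omega)
    rw [← hE] at hr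
    have g1 : w.d (s * ζ r) (z1 * (s * ζ r)) ≤ w.len z := by
      have e : z1 * (s * ζ r) = s * (z * ζ r) := by rw [hz]; group
      rw [e, w.d_mul, ← hζ.per]
      have := per_le' hζ (i := r) (j := r + w.len z) (by omega)
      omega
    have g2 := w.d_tri (p 0) (s * ζ r) (z1 * p 0)
    have g3 := w.d_tri (s * ζ r) (z1 * (s * ζ r)) (z1 * p 0)
    have g4 : w.d (z1 * (s * ζ r)) (z1 * p 0) = w.d (p 0) (s * ζ r) := by
      rw [w.d_mul, w.d_comm]
    omega
  -- translates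
  have czA : z1 * A = A * z1 := by
    rw [hAd, hx0, ← pow_mul]
    exact ((Commute.refl z1).pow_right _).inv_right.eq
  have czB : z1 * B' = B' * z1 := by
    rw [hBd, hx0, ← pow_mul]
    exact ((Commute.refl z1).pow_right _).eq
  have dzA : w.d (z1 * A) A = w.len z1 := by
    rw [czA, w.d_comm]
    unfold GH.d
    rw [inv_mul_cancel_left]
  have dzB : w.d (z1 * B') B' = w.len z1 := by
    rw [czB, w.d_comm]
    unfold GH.d
    rw [inv_mul_cancel_left]
  have farzA : ∀ q : G, w.len A ≤ w.d (z1 * A) (z1 * q) + w.len q := by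
    intro q
    rw [w.d_mul]
    exact farA q
  have farzB : ∀ q : G, w.len B' ≤ w.d (z1 * q) (z1 * B') + w.len q := by
    intro q
    rw [w.d_mul]
    exact farB q
  have btwz : ∀ i, i ≤ 2 * κ →
      w.d A (z1 * p i) + w.d (z1 * p i) B' ≤ w.d A B' + (c1 + 2 * w.D) := by
    intro i hi
    have f1 := farzA (p i)
    have f2 := farzB (p i)
    have f3 := lp i hi
    have f4 := btwp i hi
    rw [← w.d_mul z1 A, ← w.d_mul z1 (p i), ← w.d_mul z1 A B'] at f4
    exact trans2 (w := w) (r := w.len z1) dzA.le dzB.le f4 (by omega) (by omega)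
  have monoz : ∀ i, i ≤ 2 * κ → w.d A (z1 * p 0) + i ≤ w.d A (z1 * p i) + c1 + w.D := by
    intro i hi
    have f1 := farzA (p 0)
    have f3 := lp 0 (by omega)
    have f4 := mono i hi
    have f5 := dpp 0 i (by omega)
    rw [← w.d_mul z1 A, ← w.d_mul z1 A] at f4
    rw [← w.d_mul z1] at f5
    have := w.tr1 (a := z1 * A) (b := z1 * p i) (a' := A) (x := z1 * p 0) (c := c1)
      (r := w.len z1) (by omega) dzA.le (by omega)
    omega
  have close : ∀ i i' : ℕ, i ≤ 2 * κ → i' ≤ 2 * κ →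
      (w.d A (z1 * p 0) + i = w.d A (p 0) + i') → w.d (z1 * p i) (p i') ≤ c3 := by
    intro i i' hi hi' he
    have f1 := btwz i hi
    have f2 := btwp i' hi'
    have f3 := monoz i hi
    have f4 := mono i' hi'
    have f5 := w.d_tri A (z1 * p 0) (z1 * p i)
    have f6 := w.d_tri A (p 0) (p i')
    rw [w.d_mul, dpp 0 i (by omega)] at f5
    rw [dpp 0 i' (by omega)] at f6
    have f7 := w.nr (a := A) (b := B') (x := z1 * p i) (y := p i') (c := c1 + 2 * w.D)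
      f1 (by omega)
    omega
  -- choice of the indices
  have hτ1 := w.d_tri A (p 0) (z1 * p 0)
  have hτ2 := w.d_tri A (z1 * p 0) (p 0)
  rw [w.d_comm (z1 * p 0) (p 0)] at hτ2
  obtain ⟨m, hm⟩ : ∃ m, m = κ / 4 := ⟨_, rfl⟩
  obtain ⟨i, i', hi, hi', he⟩ : ∃ i i' : ℕ, i + m ≤ 2 * κ ∧ i' + m ≤ 2 * κ ∧
      w.d A (z1 * p 0) + i = w.d A (p 0) + i' := by
    rcases le_total (w.d A (p 0)) (w.d A (z1 * p 0)) with h1 | h1
    · exact ⟨0, w.d A (z1 * p 0) - w.d A (p 0), by omega, by omega, by omega⟩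
    · exact ⟨w.d A (p 0) - w.d A (z1 * p 0), 0, by omega, by omega, by omega⟩
  have k1 := close i i' (by omega) (by omega) he
  have k2 := close (i + m) (i' + m) hi hi' (by omega)
  -- the commuting elements
  obtain ⟨r, hr⟩ : ∃ r, r = (p i')⁻¹ * (z1 * g) := ⟨_, rfl⟩
  have hcomm : h' * (r * h' * r⁻¹) = r * h' * r⁻¹ * h' := by
    have hlen : w.len (h' ^ m) = m := hS' m
    have key := (hB (h' ^ m) (by rw [hlen]; omega) h' ⟨?_, ?_⟩).2 (r * h' * r⁻¹) ⟨?_, ?_⟩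
    · exact key
    · have := hS' 1
      rw [pow_one] at this
      omega
    · have := hS' 1
      rw [pow_one] at this
      rw [show (h' ^ m)⁻¹ * h' * h' ^ m = h' by
        rw [mul_assoc, ← pow_succ', pow_succ]; group, this]
      omega
    · -- displacement at `p i'`
      have e1 : w.len (r * h' * r⁻¹) =
          w.d (p i') (z1 * g * h' * (z1 * g)⁻¹ * p i') := by
        unfold GH.d
        congr 1
        rw [hr]; group
      have e2' : w.d (z1 * p i) (z1 * g * h' * (z1 * g)⁻¹ * (z1 * p i)) = 1 := by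
        have : z1 * g * h' * (z1 * g)⁻¹ * (z1 * p i) = z1 * p (i + 1) := by
          rw [hp', hp', pow_succ']; group
        rw [this, w.d_mul, dpp i (i + 1) (by omega)]
        omega
      have := disp w (q := p i') (r := z1 * p i) (h := z1 * g * h' * (z1 * g)⁻¹) (e := c3)
        (l := 1) (by rw [w.d_comm]; exact k1) e2'.le
      rw [e1]
      omega
    · have e1 : w.len ((h' ^ m)⁻¹ * (r * h' * r⁻¹) * h' ^ m) =
          w.d (p (i' + m)) (z1 * g * h' * (z1 * g)⁻¹ * p (i' + m)) := by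
        unfold GH.d
        congr 1
        rw [hr, hp', hp', pow_add]; group
      have e2' : w.d (z1 * p (i + m))
          (z1 * g * h' * (z1 * g)⁻¹ * (z1 * p (i + m))) = 1 := by
        have : z1 * g * h' * (z1 * g)⁻¹ * (z1 * p (i + m)) = z1 * p (i + m + 1) := by
          rw [hp', hp', pow_succ']; group
        rw [this, w.d_mul, dpp (i + m) (i + m + 1) (by omega)]
        omega
      have := disp w (q := p (i' + m)) (r := z1 * p (i + m)) (h := z1 * g * h' * (z1 * g)⁻¹)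
        (e := c3) (l := 1) (by rw [w.d_comm]; exact k2) e2'.le
      rw [e1]
      omega
  -- the centralizer of `h'`
  have hmix := acy_mix hB
  have hK : 100 * w.D + 100 ≤ 2 * c3 + 1 + (100 * w.D + 100) := by omega
  have hh'inf : ¬ IsOfFinOrder h' := by
    intro hf
    obtain ⟨n, hn, hn1⟩ := isOfFinOrder_iff_pow_eq_one.1 hf
    have := hS' n
    rw [hn1, w.len_one] at this
    omega
  obtain ⟨y, hy, l, hl⟩ := w.cyc hK hT hmix hh'inf
  have hl' : y ^ l = h' := hl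
  have hl0 : l ≠ 0 := by
    rintro rfl
    rw [zpow_zero] at hl'
    exact hh'inf (by rw [← hl']; exact IsOfFinOrder.one)
  have hyl : y * h' = h' * y := by
    rw [← hl']; exact (Commute.self_zpow y l)
  have hry : r * y ^ l * r⁻¹ ∈ Subgroup.zpowers y := by
    apply hy.2
    rw [hl']
    exact w.ct hK hT hmix hh'inf hcomm.symm hyl
  obtain ⟨b, hb⟩ := hry
  have hb' : y ^ b = r * y ^ l * r⁻¹ := hb
  have hrz : r ∈ Subgroup.zpowers y := w.nrm hK hT hmix hy (nw.odd r) hl0 hb'.symm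
  have hh'z : h' ∈ Subgroup.zpowers y := ⟨l, hl⟩
  have h5 : g⁻¹ * z1 * g ∈ Subgroup.zpowers y := by
    have : g⁻¹ * z1 * g = h' ^ i' * r := by
      rw [hr, hp']; group
    rw [this]
    exact mul_mem (pow_mem hh'z _) hrz
  have h6 : g⁻¹ * x0 * g ∈ Subgroup.zpowers y := by
    have : g⁻¹ * x0 * g = (g⁻¹ * z1 * g) ^ k := by
      have e := conj_pow (a := g⁻¹) (b := z1) (i := k)
      rw [inv_inv] at e
      rw [e, hx0]
    rw [this]
    exact pow_mem h5 _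
  have h7 : h ^ j' * u * h ^ j ∈ Subgroup.zpowers y := by
    have : h ^ j' * u * h ^ j = (h' ^ (2 * κ))⁻¹ * (g⁻¹ * x0 * g) := by
      rw [hxe, hg']; group
    rw [this]
    exact mul_mem (inv_mem (pow_mem hh'z _)) h6
  apply hne
  obtain ⟨a, ha⟩ := h7
  have ha' : y ^ a = h ^ j' * u * h ^ j := ha
  rw [← ha', ← hl', ← zpow_add, ← zpow_add, add_comm]

theorem t (hacy : S_ACY) : S_CPR := by
  intro G _ w h h' nw hS hS' _ C
  obtain ⟨T, hT, hA⟩ := hacy G w nw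
  obtain ⟨κ1, hκ1⟩ := no_root nw hT hA hS hS' C
  refine ⟨κ1 + C + 1, fun κ hκ u x0 Z => ?_⟩
  have key := hκ1 κ (by omega) u x0 Z
  obtain ⟨B, hB⟩ := hA (100 * w.D + 100)
  have hsup0 : w.Sup C x0 := sup_of_btw Z.btw
  have l1 : 3 * κ ≤ w.len x0 + 2 * C := by
    have h1 := Z.btw 0 1 2 (by omega) (by omega)
    have e2 : Vx u x0 2 = x0 := by
      have := vx_even u x0 1
      rwa [mul_one, zpow_one] at this
    rw [vx_zero, vx_one, e2, w.d_one, w.d_one, Z.hu] at h1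
    have h2 := Z.len
    unfold GH.d at h1
    omega
  have hx0inf : ¬ IsOfFinOrder x0 := by
    intro hf
    obtain ⟨m, hm, hm1⟩ := isOfFinOrder_iff_pow_eq_one.1 hf
    have := grow hsup0 (by omega) m
    rw [hm1, w.len_one] at this
    omega
  obtain ⟨z0, hz0, k, hk⟩ := w.cyc le_rfl hT (acy_mix hB) hx0inf
  have hk' : z0 ^ k = x0 := hk
  rcases Int.eq_nat_or_neg k with ⟨n, rfl | rfl⟩
  · rw [zpow_natCast] at hk'
    rcases Nat.lt_or_ge n 2 with hn | hn
    · have : n = 0 ∨ n = 1 := by omega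
      rcases this with rfl | rfl
      · rw [pow_zero] at hk'
        exact absurd (by rw [← hk']; exact IsOfFinOrder.one) hx0inf
      · rw [pow_one] at hk'
        rw [← hk']; exact hz0
    · exact (key z0 n hn hk'.symm).elim
  · rw [zpow_neg, zpow_natCast, ← inv_pow] at hk'
    rcases Nat.lt_or_ge n 2 with hn | hn
    · have : n = 0 ∨ n = 1 := by omega
      rcases this with rfl | rfl
      · rw [pow_zero] at hk'
        exact absurd (by rw [← hk']; exact IsOfFinOrder.one) hx0inf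
      · rw [pow_one] at hk'
        rw [← hk']; exact prim_inv hz0
    · exact (key z0⁻¹ n hn hk'.symm).elim

end Pool.Agent.Y179.SM.Cpr
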