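import Pool.Agent.Y179.SM.Circ
import Pool.Agent.TH54.BU.Rigid

/-!
# Periodic paths (helper179)
-/

set_option autoImplicit false

namespace Pool.Agent.Y179.SM.PerL

open Pool.Agent.TH54.BU Pool.Agent.Y33.SM Pool.Agent.Y179.SM.Circ

theorem ivt (f : ℕ → ℕ) (M y : ℕ) (h0 : f 0 ≤ y) (h1 : y ≤ f M)
    (hf : ∀ j, j < M → f (j + 1) ≤ f j + 1) : ∃ j ≤ M, f j = y := by
  classical
  have hex : ∃ j, y ≤ f j := ⟨M, h1⟩
  have h2 := Nat.find_spec hex
  have h3 : Nat.find hex ≤ M := Nat.find_min' hex h1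
  refine ⟨Nat.find hex, h3, ?_⟩
  rcases Nat.eq_zero_or_pos (Nat.find hex) with h4 | h4
  · rw [h4] at h2 ⊢
    omega
  · obtain ⟨k, hk⟩ : ∃ k, Nat.find hex = k + 1 := ⟨Nat.find hex - 1, by omega⟩
    have h5 := Nat.find_min hex (m := k) (by omega)
    have h6 := hf k (by omega)
    rw [hk] at h2 ⊢
    omega

theorem stepn (P : ℕ → Prop) (h0 : P 0) (M : ℕ) : (∃ n < M, P n ∧ ¬ P (n + 1)) ∨ P M := by
  induction M with
  | zero => exact Or.inr h0
  | succ M ih =>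
    rcases ih with ⟨n, hn, h1⟩ | h1
    · exact Or.inl ⟨n, by omega, h1⟩
    · by_cases h2 : P (M + 1)
      · exact Or.inr h2
      · exact Or.inl ⟨M, by omega, h1, h2⟩

section

variable {G : Type} [Group G] {w : GH G}

theorem trans2 {A B A' B' q : G} {r e : ℕ} (hA : w.d A A' ≤ r) (hB : w.d B B' ≤ r)
    (h : w.d A q + w.d q B ≤ w.d A B + e) (h1 : 2 * r + e + 2 * w.D < 2 * w.d A q)
    (h2 : 2 * r + e + 2 * w.D < 2 * w.d q B) :
    w.d A' q + w.d q B' ≤ w.d A' B' + (e + 2 * w.D) := by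
  have i1 := w.tr1 h hA (by omega)
  have i2 := w.tr1 (a := B) (b := A') (a' := B') (x := q) (c := e + w.D) (r := r)
    (by rw [w.d_comm B q, w.d_comm q A', w.d_comm B A']; omega) hB
    (by rw [w.d_comm B q]; omega)
  rw [w.d_comm B' q, w.d_comm q A', w.d_comm B' A'] at i2
  omega

/-- linear growth of the powers -/
theorem grow {c : ℕ} {x : G} (hs : w.Sup c x) (hx : c + 1 ≤ w.len x) (N : ℕ) :
    N ≤ w.len (x ^ N) := by
  rcases Nat.eq_zero_or_pos N with h | h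
  · omega
  obtain ⟨k, rfl⟩ : ∃ k, N = k + 1 := ⟨N - 1, by omega⟩
  have h1 := w.sup_len_mul hs 1 k
  rw [pow_one, one_mul] at h1
  have h2 : (k + 1) * (c + 1) ≤ (k + 1) * w.len x := Nat.mul_le_mul_left _ hx
  have h3 : (k + 1) * (c + 1) = k * c + c + (k + 1) := by ring
  omega

theorem exists_per (w : GH G) (x : G) (hx : 1 ≤ w.len x) : ∃ ζ : ℤ → G, Per w x ζ := by
  obtain ⟨δ, h0, h1, h2⟩ := w.rg_path (w.len x) 1 x (w.d_one x)
  have hl : (0 : ℤ) < w.len x := by exact_mod_cast hx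
  refine ⟨fun j => x ^ (j / w.len x) * δ (j % w.len x).toNat, ?_, ?_, ?_⟩
  · simp [h0]
  · intro j
    have e1 : (j + w.len x) / w.len x = 1 + j / w.len x := by
      rw [Int.add_ediv_of_dvd_right (dvd_refl _), Int.ediv_self hl.ne', add_comm]
    have e2 : (j + w.len x) % w.len x = j % w.len x := Int.add_emod_right _ _
    simp only [e1, e2]
    rw [zpow_add, zpow_one, mul_assoc]
  · intro j
    have hr0 := Int.emod_nonneg j hl.ne'
    have hr1 := Int.emod_lt_of_pos j hl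
    have hj := Int.mul_ediv_add_emod j (w.len x)
    set k := j / w.len x with hk
    set r := j % w.len x with hr
    have hmod : ∀ (k' r' : ℤ), 0 ≤ r' → r' < w.len x → j + 1 = w.len x * k' + r' →
        (j + 1) / w.len x = k' ∧ (j + 1) % w.len x = r' := by
      intro k' r' h3 h4 h5
      have := (Int.ediv_emod_unique hl (a := j + 1) (r := r') (q := k')).2
        ⟨by rw [h5]; ring, h3, h4⟩
      exact this
    by_cases hc : r + 1 < w.len x
    · obtain ⟨e1, e2⟩ := hmod k (r + 1) (by omega) hc (by omega)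
      simp only [e1, e2]
      rw [w.d_mul, show (r + 1).toNat = r.toNat + 1 by omega]
      exact h2 _ (by omega)
    · have hrl : r + 1 = w.len x := by omega
      obtain ⟨e1, e2⟩ := hmod (k + 1) 0 le_rfl hl (by rw [mul_add]; omega)
      simp only [e1, e2]
      rw [zpow_add, zpow_one, mul_assoc, w.d_mul, Int.toNat_zero, h0, mul_one]
      have h3 := h2 r.toNat (by omega)
      rwa [show r.toNat + 1 = w.len x by omega, h1] at h3

variable {x : G} {ζ : ℤ → G}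

theorem per_neg (h : Per w x ζ) (s : ℤ) (a : ℕ) :
    ζ (s - (a * w.len x : ℕ)) = (x ^ a)⁻¹ * ζ s := by
  have := per_pow h (s - (a * w.len x : ℕ)) a
  rw [sub_add_cancel] at this
  rw [this, inv_mul_cancel_left]

theorem per_conj (h : Per w x ζ) (hx : w.CMin x) (s : ℤ) :
    w.len ((ζ s)⁻¹ * x * ζ s) = w.len x ∧ w.CMin ((ζ s)⁻¹ * x * ζ s) := by
  have h1 : w.len ((ζ s)⁻¹ * x * ζ s) = w.len x := by
    have := per_geod h hx s _ le_rfl
    rw [h.per] at this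
    unfold GH.d at this
    rwa [← mul_assoc] at this
  refine ⟨h1, fun g => ?_⟩
  rw [h1]
  have := hx (ζ s * g)
  rwa [show (ζ s * g)⁻¹ * x * (ζ s * g) = g⁻¹ * ((ζ s)⁻¹ * x * ζ s) * g by group] at this

theorem per_sup (h : Per w x ζ) (hx : w.CMin x) (hl : 4 * w.D + 4 ≤ w.len x) (s : ℤ) (a b : ℕ) :
    w.d (ζ s) (x ^ a * ζ s) + w.d (x ^ a * ζ s) (x ^ (a + b) * ζ s) ≤
      w.d (ζ s) (x ^ (a + b) * ζ s) + 2 * w.D := by
  obtain ⟨h1, h2⟩ := per_conj h hx s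
  obtain ⟨h3, -⟩ := w.sup_of_cmin h2 (by omega)
  have hyp : ∀ k : ℕ, ((ζ s)⁻¹ * x * ζ s) ^ k = (ζ s)⁻¹ * x ^ k * ζ s := by
    intro k
    have := conj_pow (a := (ζ s)⁻¹) (b := x) (i := k)
    rwa [inv_inv] at this
  have h4 := h3 a b
  rw [hyp, hyp, hyp] at h4
  unfold GH.d
  have e : (x ^ a * ζ s)⁻¹ * (x ^ (a + b) * ζ s) = (ζ s)⁻¹ * x ^ b * ζ s := by
    rw [pow_add]; group
  rw [e, ← mul_assoc, ← mul_assoc]
  exact h4

theorem per_low (h : Per w x ζ) (hx : w.CMin x) (hl : 4 * w.D + 4 ≤ w.len x) (s : ℤ) (t : ℕ) :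
    t ≤ 2 * w.d (ζ s) (ζ (s + t)) := by
  obtain ⟨h1, h2⟩ := per_conj h hx s
  obtain ⟨h3, -⟩ := w.sup_of_cmin h2 (by omega)
  have hyp : ∀ k : ℕ, ((ζ s)⁻¹ * x * ζ s) ^ k = (ζ s)⁻¹ * x ^ k * ζ s := by
    intro k
    have := conj_pow (a := (ζ s)⁻¹) (b := x) (i := k)
    rwa [inv_inv] at this
  set l := w.len x with hl'
  have hl0 : 0 < l := by omega
  set a := t / l with ha
  set b := t % l with hb
  have hab : t = b + a * l := by
    have := Nat.mod_add_div t l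
    rw [← hb, ← ha] at this
    rw [mul_comm]; omega
  have hbl : b < l := Nat.mod_lt _ hl0
  have ez : ζ (s + t) = x ^ a * ζ (s + b) := by
    have := per_pow h (s + b) a
    rw [← this]
    congr 1
    rw [hab]
    push_cast
    ring
  have h4 := per_le h (s + b) (l - b)
  have e1 : s + (b : ℤ) + ((l - b : ℕ) : ℤ) = s + w.len x := by
    rw [Nat.cast_sub hbl.le]; ring
  rw [e1, h.per] at h4
  have h5 : w.len (((ζ s)⁻¹ * x * ζ s) ^ (a + 1)) ≤ w.d (ζ s) (ζ (s + t)) + (l - b) := by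
    rw [hyp]
    unfold GH.d at h4 ⊢
    have e2 : (ζ s)⁻¹ * x ^ (a + 1) * ζ s =
        (ζ s)⁻¹ * ζ (s + t) * ((ζ (s + b))⁻¹ * (x * ζ s)) := by
      rw [ez, pow_succ]; group
    rw [e2]
    exact (w.len_mul _ _).trans (Nat.add_le_add_left h4 _)
  have h6 := w.sup_len_mul h3 1 a
  rw [pow_one, one_mul, h1] at h6
  have h7 : a * (2 * (2 * w.D)) ≤ a * l := Nat.mul_le_mul_left _ (by omega)
  have h8 : (a + 1) * l = a * l + l := by ring
  have h9 : a * (2 * (2 * w.D)) = 2 * (a * (2 * w.D)) := by ring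
  omega

theorem per_add (h : Per w x ζ) (hx : w.CMin x) (hl : 4 * w.D + 4 ≤ w.len x) (s : ℤ)
    (t1 t2 : ℕ) : w.d (ζ s) (ζ (s + t1)) + w.d (ζ (s + t1)) (ζ (s + t1 + t2)) ≤
      w.d (ζ s) (ζ (s + t1 + t2)) + 6 * w.D := by
  set l := w.len x with hl'
  have hl0 : 0 < l := by omega
  obtain ⟨a1, r1, h1, h2, h3⟩ : ∃ a1 r1 : ℕ, t1 + r1 = (a1 + 1) * l ∧ 1 ≤ r1 ∧ r1 ≤ l := by
    refine ⟨t1 / l, l - t1 % l, ?_, ?_, ?_⟩
    · have e1 := Nat.mod_add_div t1 l
      have e2 := Nat.mod_lt t1 hl0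
      have e3 : (t1 / l + 1) * l = l * (t1 / l) + l := by ring
      omega
    · have e2 := Nat.mod_lt t1 hl0
      omega
    · omega
  obtain ⟨a2, r2, h4, h5, h6⟩ : ∃ a2 r2 : ℕ, t2 + r2 = (a2 + 1) * l ∧ 1 ≤ r2 ∧ r2 ≤ l := by
    refine ⟨t2 / l, l - t2 % l, ?_, ?_, ?_⟩
    · have e1 := Nat.mod_add_div t2 l
      have e2 := Nat.mod_lt t2 hl0
      have e3 : (t2 / l + 1) * l = l * (t2 / l) + l := by ring
      omega
    · have e2 := Nat.mod_lt t2 hl0
      omega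
    · omega
  -- the points
  have hq : ζ (s + t1) = x ^ (a1 + 1) * ζ (s - r1) := by
    have := per_pow h (s - r1) (a1 + 1)
    rw [← hl', ← h1] at this
    rw [← this]; congr 1; push_cast; ring
  have hp' : ζ (s + t1 + t2 + r2) = x ^ (a2 + 1) * ζ (s + t1) := by
    have := per_pow h (s + t1) (a2 + 1)
    rw [← hl', ← h4] at this
    rw [← this]; congr 1; push_cast; ring
  have hp'' : ζ (s + t1 + t2 + r2 - l) = x ^ a2 * ζ (s + t1) := by
    have := per_pow h (s + t1) a2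
    rw [← hl'] at this
    rw [← this]; congr 1
    have : ((t2 + r2 : ℕ) : ℤ) = (((a2 + 1) * l : ℕ) : ℤ) := by rw [h4]
    push_cast at this ⊢
    linarith
  have hxp : ζ (s - r1 + l) = x * ζ (s - r1) := h.per _
  -- (1)
  have i1 := per_sup h hx hl (s - r1) (a1 + 1) (a2 + 1)
  have e1 : x ^ (a1 + 1 + (a2 + 1)) * ζ (s - r1) = ζ (s + t1 + t2 + r2) := by
    rw [hp', hq, ← mul_assoc, ← pow_add]
    congr 2
    omega
  rw [e1, ← hq] at i1
  -- (2)
  have i2 := per_sup h hx hl (s - r1) 1 a1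
  rw [pow_one, show 1 + a1 = a1 + 1 by omega, ← hq, ← hxp] at i2
  have j1 : w.d (ζ (s - r1)) (ζ (s - r1 + l)) = l := per_geod h hx _ _ le_rfl
  have j2 : w.d (ζ (s - r1)) (ζ s) ≤ r1 := by
    have := per_le h (s - r1) r1
    rwa [sub_add_cancel] at this
  have j3 : w.d (ζ s) (ζ (s - r1 + l)) ≤ l - r1 := by
    have := per_le h s (l - r1)
    rwa [show s + ((l - r1 : ℕ) : ℤ) = s - r1 + l by rw [Nat.cast_sub h3]; ring] at this
  have j4 := w.d_tri (ζ s) (ζ (s - r1 + l)) (ζ (s + t1))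
  -- (3)
  have i3 := per_sup h hx hl (s + t1) a2 1
  rw [← hp', ← hp''] at i3
  have j5 : w.d (ζ (s + t1 + t2 + r2 - l)) (ζ (s + t1 + t2 + r2)) = l := by
    have := per_geod h hx (s + t1 + t2 + r2 - l) l le_rfl
    rwa [sub_add_cancel] at this
  have j6 : w.d (ζ (s + t1 + t2)) (ζ (s + t1 + t2 + r2)) ≤ r2 := per_le h _ _
  have j7 : w.d (ζ (s + t1 + t2 + r2 - l)) (ζ (s + t1 + t2)) ≤ l - r2 := by
    have := per_le h (s + t1 + t2 + r2 - l) (l - r2)
    rwa [show s + t1 + t2 + r2 - l + ((l - r2 : ℕ) : ℤ) = s + t1 + t2 by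
      rw [Nat.cast_sub h6]; ring] at this
  have j8 := w.d_tri (ζ (s + t1)) (ζ (s + t1 + t2 + r2 - l)) (ζ (s + t1 + t2))
  -- the end
  have j9 := w.d_tri (ζ (s - r1)) (ζ s) (ζ (s + t1 + t2 + r2))
  have j10 := w.d_tri (ζ s) (ζ (s + t1 + t2)) (ζ (s + t1 + t2 + r2))
  omega

theorem per_le' (h : Per w x ζ) {i j : ℤ} (hij : i ≤ j) : (w.d (ζ i) (ζ j) : ℤ) ≤ j - i := by
  have := per_le h i (j - i).toNat
  rw [show i + ((j - i).toNat : ℤ) = j by omega] at this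
  omega

theorem per_low' (h : Per w x ζ) (hx : w.CMin x) (hl : 4 * w.D + 4 ≤ w.len x) {i j : ℤ}
    (hij : i ≤ j) : j - i ≤ 2 * (w.d (ζ i) (ζ j) : ℤ) := by
  have := per_low h hx hl i (j - i).toNat
  rw [show i + ((j - i).toNat : ℤ) = j by omega] at this
  omega

theorem per_add' (h : Per w x ζ) (hx : w.CMin x) (hl : 4 * w.D + 4 ≤ w.len x) {i j k : ℤ}
    (hij : i ≤ j) (hjk : j ≤ k) :
    w.d (ζ i) (ζ j) + w.d (ζ j) (ζ k) ≤ w.d (ζ i) (ζ k) + 6 * w.D := by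
  have := per_add h hx hl i (j - i).toNat (k - j).toNat
  rwa [show i + ((j - i).toNat : ℤ) = j by omega, show j + ((k - j).toNat : ℤ) = k by omega]
    at this

end

end Pool.Agent.Y179.SM.PerL
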